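import Pool.Agent.H69.LQ.Lib
import Pool.Agent.H69.LQ.Targets1

/-!
# MP_8f7db2_an, local minimality of the ball in measure, row HG: the gain from the holes
-/

set_option autoImplicit false

open MeasureTheory Metric Set
open scoped ENNReal
open Pool.Agent.H85.LK (E adm lam Ann)
open Pool.Agent.H69.LQ

namespace Pool.Agent.H81.LQ1

theorem HH_nonneg {N : ℕ} (a : ℝ) (w : E N → ℝ) : 0 ≤ HH a w := by
  unfold HH
  exact integral_nonneg fun x => by positivity

theorem pf_HG (hI3 : T_I3) (hH0 : T_H0) (hH1 : T_H1) : T_HG := by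
  intro N L r₁ μ a τ s t hN hF hZ hμ hra hμa hτ hs ht
  have hμ0 : 0 < μ := lt_of_lt_of_le one_pos hμ
  have ha : 0 < a := lt_trans (div_pos hZ.pos hμ0) hra
  have ha1 : a < 1 := by nlinarith
  obtain ⟨r₀, κ₀, hr₀, hκ₀, h0⟩ := hH0 N L r₁ μ a s (t / 2) hN hF hZ hμ hra hμa hs (half_pos ht)
  set r' : ℝ := min r₀ (a / 2) with hr'
  have hr'0 : 0 < r' := lt_min hr₀ (half_pos ha)
  have hr'a : r' < a := (min_le_right _ _).trans_lt (half_lt_self ha)
  have hN0 : (0 : ℝ) < N := by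
    have h2 : (2 : ℝ) ≤ N := by exact_mod_cast hN
    linarith
  have hA : (0 : ℝ) < (N : ℝ) ^ 2 := pow_pos hN0 2
  obtain ⟨κ₁, hκ₁, h1⟩ := hH1 N L r' a τ ((N : ℝ) ^ 2) (t / 2) hN hF hr'0 ha1 hτ hA (half_pos ht)
  refine ⟨min κ₀ κ₁, lt_min hκ₀ hκ₁, ?_⟩
  intro Ω v hΩ hvol hv
  obtain ⟨hI3a, hI3b⟩ := hI3 N L r₁ μ a hN hF hZ hμ hra hμa
  -- properties of the differences
  have hw := fun i => hI3b (v i) (ee i) (hv i).1 (hv i).2.2.2.1 (hv i).2.2.2.2
  have hPP : ∀ i, 0 ≤ PP L μ a (wT L (ee i) (v i)) := fun i =>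
    hI3a _ (hw i).1 (hw i).2.1 (hw i).2.2.1
  have hRHS : 0 ≤ ∑ i, (PP L μ a (wT L (ee i) (v i)) + t * HH a (wT L (ee i) (v i))) :=
    Finset.sum_nonneg fun i _ => add_nonneg (hPP i) (mul_nonneg ht.le (HH_nonneg _ _))
  rcases lt_or_ge ((N : ℝ) ^ 2 - s) 0 with hneg | hpos
  · exact (mul_nonpos_of_nonpos_of_nonneg hneg.le measureReal_nonneg).trans hRHS
  -- zero near the complement of the set
  have hzero : ∀ i, ∀ x, x ∉ tsupport (v i) → wT L (ee i) (v i) x = -gT L (ee i) x := by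
    intro i x hx
    unfold wT
    rw [image_eq_zero_of_notMem_tsupport hx, zero_sub]
  set G : Set (E N) := ⋂ i, (tsupport (v i))ᶜ with hG
  have hGo : IsOpen G := isOpen_iInter_of_finite fun i => (isClosed_tsupport _).isOpen_compl
  have hGc : ∀ x, x ∉ Ω → x ∈ G := by
    intro x hx
    rw [hG]
    exact mem_iInter.2 fun i hxi => hx ((hv i).2.2.1 hxi)
  set K0 : Set (E N) := closedBall 0 r' \ Ω with hK0
  set K1 : Set (E N) := (ball 0 (a - τ) \ ball 0 r') \ Ω with hK1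
  have hK0c : IsClosed K0 := isClosed_closedBall.sdiff hΩ
  have hK0s : K0 ⊆ closedBall 0 r₀ := fun x hx =>
    closedBall_subset_closedBall (min_le_left _ _) hx.1
  have hK0v : K0 ⊆ ball 0 a \ Ω := fun x hx => ⟨closedBall_subset_ball hr'a hx.1, hx.2⟩
  have hK1v : K1 ⊆ ball 0 a \ Ω := fun x hx =>
    ⟨ball_subset_ball (by linarith) hx.1.1, hx.2⟩
  have hK1m : MeasurableSet K1 :=
    (measurableSet_ball.diff measurableSet_ball).diff hΩ.measurableSet
  have hle0 : volume K0 ≤ ENNReal.ofReal κ₀ :=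
    ((measure_mono hK0v).trans hvol).trans (ENNReal.ofReal_le_ofReal (min_le_left _ _))
  have hle1 : volume K1 ≤ ENNReal.ofReal κ₁ :=
    ((measure_mono hK1v).trans hvol).trans (ENNReal.ofReal_le_ofReal (min_le_right _ _))
  have hfin0 : volume K0 ≠ ⊤ := ne_top_of_le_ne_top ENNReal.ofReal_ne_top hle0
  have hfin1 : volume K1 ≠ ⊤ := ne_top_of_le_ne_top ENNReal.ofReal_ne_top hle1
  have e0 := h0 K0 G (fun i => wT L (ee i) (v i)) hK0c hK0s hle0 hGo (fun x hx => hGc x hx.2)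
    (fun i => ⟨(hw i).1, (hw i).2.1, (hw i).2.2.1, fun x hx => hzero i x (mem_iInter.1 hx i)⟩)
  have e1 := h1 K1 (fun i => wT L (ee i) (v i)) hK1m (fun x hx => hx.1) hle1
    (fun i => ⟨(hw i).1, fun x hx => hzero i x (mem_iInter.1 (hGc x hx.2) i)⟩)
  have hsub : ball 0 (a - τ) \ Ω ⊆ K0 ∪ K1 := by
    intro x hx
    by_cases hxr : x ∈ ball (0 : E N) r'
    · exact Or.inl ⟨ball_subset_closedBall hxr, hx.2⟩
    · exact Or.inr ⟨⟨hx.1, hxr⟩, hx.2⟩
  have hvle : volume.real (ball (0 : E N) (a - τ) \ Ω) ≤ volume.real K0 + volume.real K1 :=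
    (measureReal_mono hsub (ne_top_of_le_ne_top (ENNReal.add_ne_top.2 ⟨hfin0, hfin1⟩)
      (measure_union_le _ _))).trans (measureReal_union_le _ _)
  have hv1 : 0 ≤ volume.real K1 := measureReal_nonneg
  calc ((N : ℝ) ^ 2 - s) * volume.real (ball (0 : E N) (a - τ) \ Ω)
      ≤ ((N : ℝ) ^ 2 - s) * (volume.real K0 + volume.real K1) :=
        mul_le_mul_of_nonneg_left hvle hpos
    _ ≤ ((N : ℝ) ^ 2 - s) * volume.real K0 + (N : ℝ) ^ 2 * volume.real K1 := by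
        nlinarith [mul_nonneg hs.le hv1]
    _ ≤ (∑ i, (PP L μ a (wT L (ee i) (v i)) + t / 2 * HH a (wT L (ee i) (v i)))) +
          t / 2 * ∑ i, HH a (wT L (ee i) (v i)) := add_le_add e0 e1
    _ = ∑ i, (PP L μ a (wT L (ee i) (v i)) + t * HH a (wT L (ee i) (v i))) := by
        rw [Finset.mul_sum, ← Finset.sum_add_distrib]
        refine Finset.sum_congr rfl fun i _ => ?_
        ring

end Pool.Agent.H81.LQ1
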